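import Pool.Agent.N798.S2.Stm

/-!
# Project S2 (helper798), task LP: from `Λ` to primes (helper93)
-/

set_option autoImplicit false

namespace Pool.Agent.N798.S2

open Finset

namespace LP

/-- Abel summation with a decreasing weight -/
theorem abel {w : ℕ → ℝ} {u : ℕ → ℂ} {N M : ℕ} {D : ℝ} (hNM : N ≤ M)
    (hw : ∀ n, N ≤ n → w (n + 1) ≤ w n)
    (hD : ∀ n, N ≤ n → n ≤ M → ‖∑ m ∈ Ioc N n, u m‖ ≤ D) :
    ‖∑ n ∈ Ioc N M, (w n : ℂ) * u n - (w M : ℂ) * ∑ n ∈ Ioc N M, u n‖ ≤ (w N - w M) * D := by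
  induction M, hNM using Nat.le_induction with
  | base => simp
  | succ M hM ih =>
    have h1 := ih fun n h1 h2 => hD n h1 (by omega)
    have h2 := hD M hM (by omega)
    rw [Finset.sum_Ioc_succ_top hM, Finset.sum_Ioc_succ_top hM]
    have e : ∑ n ∈ Ioc N M, (w n : ℂ) * u n + (w (M + 1) : ℂ) * u (M + 1) -
        (w (M + 1) : ℂ) * (∑ n ∈ Ioc N M, u n + u (M + 1)) =
        (∑ n ∈ Ioc N M, (w n : ℂ) * u n - (w M : ℂ) * ∑ n ∈ Ioc N M, u n) +
          ((w M - w (M + 1) : ℝ) : ℂ) * ∑ n ∈ Ioc N M, u n := by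
      push_cast
      ring
    rw [e]
    refine (norm_add_le _ _).trans ?_
    have h3 : ‖((w M - w (M + 1) : ℝ) : ℂ) * ∑ n ∈ Ioc N M, u n‖ ≤ (w M - w (M + 1)) * D := by
      rw [norm_mul, Complex.norm_real, Real.norm_of_nonneg (sub_nonneg.2 (hw M hM))]
      exact mul_le_mul_of_nonneg_left h2 (sub_nonneg.2 (hw M hM))
    linarith

theorem abel' {w : ℕ → ℝ} {u : ℕ → ℂ} {N M : ℕ} {D : ℝ} (hNM : N ≤ M)
    (hw : ∀ n, N ≤ n → w (n + 1) ≤ w n) (hw0 : 0 ≤ w M)
    (hD : ∀ n, N ≤ n → n ≤ M → ‖∑ m ∈ Ioc N n, u m‖ ≤ D) :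
    ‖∑ n ∈ Ioc N M, (w n : ℂ) * u n‖ ≤ w N * D := by
  have h1 := abel hNM hw hD
  have h2 : ‖(w M : ℂ) * ∑ n ∈ Ioc N M, u n‖ ≤ w M * D := by
    rw [norm_mul, Complex.norm_real, Real.norm_of_nonneg hw0]
    exact mul_le_mul_of_nonneg_left (hD M hNM le_rfl) hw0
  have h3 := norm_add_le (∑ n ∈ Ioc N M, (w n : ℂ) * u n - (w M : ℂ) * ∑ n ∈ Ioc N M, u n)
    ((w M : ℂ) * ∑ n ∈ Ioc N M, u n)
  rw [sub_add_cancel] at h3
  linarith

end LP

open LP in
/-- **LP** -/
theorem lp2 : S_LP := by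
  obtain ⟨C, hC⟩ := Chebyshev.psi_sub_theta_le_mul_sqrt
  refine ⟨1 + 4 * |C|, by positivity, ?_⟩
  intro E N N' B hE hN hNN' hN' hB
  have hNR : (2 : ℝ) ≤ N := by exact_mod_cast hN
  have hl2 : 1 / 2 ≤ Real.log 2 := by
    have := Real.log_two_gt_d9
    linarith
  have hlN : 1 / 2 ≤ Real.log N := hl2.trans (Real.log_le_log (by norm_num) hNR)
  have hB0 : 0 ≤ B := (norm_nonneg _).trans (hB N le_rfl hNN')
  -- the prime powers
  have hpp : ∀ M, N ≤ M → M ≤ N' →
      ‖∑ n ∈ Ioc N M, (if n.Prime then (0 : ℂ) else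
        ((ArithmeticFunction.vonMangoldt n : ℝ) : ℂ) * E n)‖ ≤ C * √((2 * N : ℕ) : ℝ) := by
    intro M hM1 hM2
    refine le_trans ?_ (hC ((2 * N : ℕ) : ℝ))
    rw [Chebyshev.psi_sub_theta_eq_sum_not_prime, Nat.floor_natCast, Finset.sum_filter]
    refine (norm_sum_le _ _).trans ?_
    refine le_trans (Finset.sum_le_sum (g := fun n => if ¬ n.Prime then
      ArithmeticFunction.vonMangoldt n else 0) fun n _ => ?_) ?_
    · by_cases h : n.Prime
      · simp [h]
      · simp only [h, if_false, not_false_eq_true, if_true]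
        rw [norm_mul, Complex.norm_real, Real.norm_of_nonneg ArithmeticFunction.vonMangoldt_nonneg]
        calc ArithmeticFunction.vonMangoldt n * ‖E n‖ ≤ ArithmeticFunction.vonMangoldt n * 1 :=
              mul_le_mul_of_nonneg_left (hE n) ArithmeticFunction.vonMangoldt_nonneg
          _ = _ := mul_one _
    · refine Finset.sum_le_sum_of_subset_of_nonneg ?_ fun n _ _ => ?_
      · intro n hn
        rw [Finset.mem_Ioc] at hn ⊢
        omega
      · split_ifs
        · exact le_rfl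
        · exact ArithmeticFunction.vonMangoldt_nonneg
  set D : ℝ := B + C * √((2 * N : ℕ) : ℝ) with hD
  set u : ℕ → ℂ := fun n => if n.Prime then ((Real.log n : ℝ) : ℂ) * E n else 0 with hu
  have hDu : ∀ n, N ≤ n → n ≤ N' → ‖∑ m ∈ Ioc N n, u m‖ ≤ D := by
    intro M hM1 hM2
    have e : ∑ m ∈ Ioc N M, u m =
        ∑ n ∈ Ioc N M, ((ArithmeticFunction.vonMangoldt n : ℝ) : ℂ) * E n -
        ∑ n ∈ Ioc N M, (if n.Prime then (0 : ℂ) else
        ((ArithmeticFunction.vonMangoldt n : ℝ) : ℂ) * E n) := by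
      rw [← Finset.sum_sub_distrib]
      refine Finset.sum_congr rfl fun n _ => ?_
      simp only [hu]
      by_cases h : n.Prime
      · simp only [h, if_true, sub_zero]
        rw [ArithmeticFunction.vonMangoldt_apply_prime h]
      · simp only [h, if_false, sub_self]
    rw [e]
    exact (norm_sub_le _ _).trans (add_le_add (hB M hM1 hM2) (hpp M hM1 hM2))
  have hmain := abel' (w := fun n => 1 / Real.log n) (u := u) hNN' (fun n hn => by
      have h1 : (2 : ℝ) ≤ n := by exact_mod_cast hN.trans hn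
      have h2 : (n : ℝ) ≤ ((n + 1 : ℕ) : ℝ) := by push_cast; linarith
      exact one_div_le_one_div_of_le (Real.log_pos (by linarith))
        (Real.log_le_log (by linarith) h2))
    (by
      have h1 : (2 : ℝ) ≤ N' := by exact_mod_cast hN.trans hNN'
      exact one_div_nonneg.2 (Real.log_nonneg (by linarith))) hDu
  have e2 : ∑ n ∈ Ioc N N', (if n.Prime then (1 : ℂ) else 0) * E n =
      ∑ n ∈ Ioc N N', ((1 / Real.log n : ℝ) : ℂ) * u n := by
    refine Finset.sum_congr rfl fun n hn => ?_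
    simp only [hu]
    by_cases h : n.Prime
    · simp only [h, if_true, one_mul]
      have h1 : (2 : ℝ) ≤ n := by exact_mod_cast h.two_le
      have h2 : Real.log n ≠ 0 := (Real.log_pos (by linarith)).ne'
      rw [← mul_assoc, ← Complex.ofReal_mul, one_div_mul_cancel h2, Complex.ofReal_one, one_mul]
    · simp only [h, if_false, zero_mul, mul_zero]
  rw [e2]
  refine hmain.trans ?_
  have hs : √((2 * N : ℕ) : ℝ) ≤ 2 * √(N : ℝ) := by
    rw [Real.sqrt_le_left (by positivity), mul_pow, Real.sq_sqrt (by linarith)]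
    push_cast
    linarith
  have hs0 : 0 ≤ √((2 * N : ℕ) : ℝ) := Real.sqrt_nonneg _
  have hs1 : 0 ≤ √(N : ℝ) := Real.sqrt_nonneg _
  have hl : 1 / Real.log N ≤ 2 := by
    rw [div_le_iff₀ (by linarith)]
    linarith
  have hl0 : 0 ≤ 1 / Real.log N := one_div_nonneg.2 (by linarith)
  have h5 : C * √((2 * N : ℕ) : ℝ) ≤ |C| * (2 * √(N : ℝ)) :=
    (mul_le_mul_of_nonneg_right (le_abs_self C) hs0).trans
      (mul_le_mul_of_nonneg_left hs (abs_nonneg C))
  have h6 : 0 ≤ |C| * (2 * √(N : ℝ)) := by positivity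
  have h7 : 0 ≤ B / Real.log N := div_nonneg hB0 (by linarith)
  calc 1 / Real.log N * D ≤ 1 / Real.log N * (B + |C| * (2 * √(N : ℝ))) := by
        apply mul_le_mul_of_nonneg_left _ hl0
        rw [hD]
        linarith
    _ = B / Real.log N + 1 / Real.log N * (|C| * (2 * √(N : ℝ))) := by ring
    _ ≤ B / Real.log N + 2 * (|C| * (2 * √(N : ℝ))) := by
        have := mul_le_mul_of_nonneg_right hl h6
        linarith
    _ ≤ (1 + 4 * |C|) * (B / Real.log N + √(N : ℝ)) := by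
        have h8 : 0 ≤ |C| * (B / Real.log N) := mul_nonneg (abs_nonneg C) h7
        nlinarith

end Pool.Agent.N798.S2
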